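import Pool.Agent.Run7.h942.SO.Core
set_option autoImplicit false
open Filter Topology
namespace Pool.Agent.Run7.h942.SO

variable {ι : Type} [Fintype ι] [DecidableEq ι]

/-- box: each coordinate runs through `c k, c k + p k, c k + 2 p k, ...` (`p k = 0` allowed). -/
def Box (c p : ι → ℕ) : Set (ι → ℕ) := {n | ∀ k, ∃ h : ℕ, n k = c k + p k * h}

/-- finite union of boxes -/
def FU (S : Set (ι → ℕ)) : Prop :=
  ∃ F : Finset ((ι → ℕ) × (ι → ℕ)), S = {n | ∃ b ∈ F, n ∈ Box b.1 b.2}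

omit [Fintype ι] [DecidableEq ι] in
theorem FU_empty : FU (∅ : Set (ι → ℕ)) := ⟨∅, by simp⟩

omit [Fintype ι] [DecidableEq ι] in
theorem FU_box (c p : ι → ℕ) : FU (Box c p) := ⟨{(c, p)}, by simp⟩

theorem FU_union {S S' : Set (ι → ℕ)} (h : FU S) (h' : FU S') : FU (S ∪ S') := by
  classical
  obtain ⟨F, rfl⟩ := h
  obtain ⟨F', rfl⟩ := h'
  refine ⟨F ∪ F', ?_⟩
  ext n
  simp only [Set.mem_union, Set.mem_setOf_eq, Finset.mem_union]
  constructor
  · rintro (⟨b, hb, hn⟩ | ⟨b, hb, hn⟩)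
    · exact ⟨b, Or.inl hb, hn⟩
    · exact ⟨b, Or.inr hb, hn⟩
  · rintro ⟨b, hb | hb, hn⟩
    · exact Or.inl ⟨b, hb, hn⟩
    · exact Or.inr ⟨b, hb, hn⟩

theorem FU_bi {β : Type} (s : Finset β) (f : β → Set (ι → ℕ)) (h : ∀ b ∈ s, FU (f b)) :
    FU {n | ∃ b ∈ s, n ∈ f b} := by
  classical
  induction s using Finset.induction_on with
  | empty => simpa using (FU_empty (ι := ι))
  | insert a s ha ih =>
    have h1 : {n | ∃ b ∈ insert a s, n ∈ f b} = f a ∪ {n | ∃ b ∈ s, n ∈ f b} := by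
      ext n
      simp
    rw [h1]
    exact FU_union (h a (Finset.mem_insert_self _ _)) (ih fun b hb => h b (Finset.mem_insert_of_mem hb))

/-- slice -/
def Sl (x : ι → ℕ → ℂ) (T : Set (MvPolynomial ι ℂ)) (K : Finset ι) (c p : ι → ℕ) : Set (ι → ℕ) :=
  {n | (∀ k ∈ K, ∃ h : ℕ, n k = c k + p k * h) ∧ ∀ P ∈ T, MvPolynomial.eval (fun k => x k (n k)) P = 0}

omit [Fintype ι] in
theorem Sl_insert (x : ι → ℕ → ℂ) (T : Set (MvPolynomial ι ℂ)) (K : Finset ι) (c p : ι → ℕ) (k : ι) (hk : k ∉ K)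
    (j q : ℕ) (n : ι → ℕ) :
    n ∈ Sl x T (insert k K) (Function.update c k j) (Function.update p k q) ↔
      n ∈ Sl x T K c p ∧ ∃ h : ℕ, n k = j + q * h := by
  simp only [Sl, Set.mem_setOf_eq]
  constructor
  · rintro ⟨h1, h2⟩
    refine ⟨⟨fun l hl => ?_, h2⟩, ?_⟩
    · have hne : l ≠ k := fun h => hk (h ▸ hl)
      have := h1 l (Finset.mem_insert_of_mem hl)
      rwa [Function.update_of_ne hne, Function.update_of_ne hne] at this
    · have := h1 k (Finset.mem_insert_self _ _)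
      rwa [Function.update_self, Function.update_self] at this
  · rintro ⟨⟨h1, h2⟩, h3⟩
    refine ⟨fun l hl => ?_, h2⟩
    by_cases hne : l = k
    · subst hne
      rwa [Function.update_self, Function.update_self]
    · rw [Function.update_of_ne hne, Function.update_of_ne hne]
      exact h1 l (Finset.mem_of_mem_insert_of_ne hl hne)

/-- independence of the sequences at infinity -/
def Ind {κ : Type} [Fintype κ] (x : κ → ℕ → ℂ) : Prop :=
  (∀ k, ∀ᶠ n in atTop, x k n ≠ 0) ∧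
  ∀ a : κ → ℤ, a ≠ 0 → ∀ L : ℝ, ∀ᶠ n : κ → ℕ in atTop, L ≤ |∑ k, (a k : ℝ) * Real.log ‖x k (n k)‖|

theorem Ind_comp {κ κ' : Type} [Fintype κ] [Fintype κ'] (x : κ → ℕ → ℂ) (hx : Ind x) (g : κ' → κ)
    (hg : Function.Injective g) : Ind (fun k => x (g k)) := by
  classical
  refine ⟨fun k => hx.1 (g k), fun a ha L => ?_⟩
  set b : κ → ℤ := fun k => if h : ∃ k', g k' = k then a h.choose else 0 with hb
  have hbg : ∀ k', b (g k') = a k' := by
    intro k'
    have h : ∃ k'', g k'' = g k' := ⟨k', rfl⟩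
    simp only [hb, h, dif_pos]
    exact congrArg a (hg h.choose_spec)
  have hb0 : b ≠ 0 := by
    intro h
    apply ha
    funext k'
    rw [← hbg k', h]
    rfl
  obtain ⟨n0, hn0⟩ := eventually_atTop.1 (hx.2 b hb0 L)
  refine eventually_atTop.2 ⟨fun k => n0 (g k), fun n hn => ?_⟩
  set n' : κ → ℕ := fun k => if h : ∃ k', g k' = k then n h.choose else n0 k with hn'
  have hng : ∀ k', n' (g k') = n k' := by
    intro k'
    have h : ∃ k'', g k'' = g k' := ⟨k', rfl⟩
    simp only [hn', h, dif_pos]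
    exact congrArg n (hg h.choose_spec)
  have h1 := hn0 n' (fun k => by
    by_cases h : ∃ k', g k' = k
    · obtain ⟨k', rfl⟩ := h
      rw [hng]
      exact hn k'
    · simp only [hn', h, dif_neg, not_false_iff]
      exact le_refl _)
  have h2 : ∑ k, (b k : ℝ) * Real.log ‖x k (n' k)‖ = ∑ k', (a k' : ℝ) * Real.log ‖x (g k') (n k')‖ := by
    rw [← Finset.sum_subset (Finset.subset_univ (Finset.univ.image g))]
    · rw [Finset.sum_image (fun a _ b _ h => hg h)]
      refine Finset.sum_congr rfl fun k' _ => ?_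
      rw [hbg, hng]
    · intro k _ hk
      have h : ¬ ∃ k', g k' = k := by simpa using hk
      simp only [hb, h, dif_neg, not_false_iff]
      simp
  rw [← h2]
  exact h1

end Pool.Agent.Run7.h942.SO
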