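import Mathlib
set_option autoImplicit false
open Filter Topology
namespace Pool.Agent.Run7.h942.SO

/-- Compactness: a rational-coefficient combination of `ℚ`-independent reals with powers of `D`. -/
theorem lower {ι : Type} [Fintype ι] [DecidableEq ι] (G : ι → ℝ) (hG : LinearIndependent ℚ G) (D : ℕ) (hD : 2 ≤ D)
    (a : ι → ℤ) (ha : a ≠ 0) :
    ∃ δ : ℝ, 0 < δ ∧ ∀ m : ι → ℕ, ∀ j, a j ≠ 0 → δ * (D : ℝ) ^ (m j) ≤ |∑ k, (a k : ℝ) * G k * (D : ℝ) ^ (m k)| := by
  have hD0 : (0 : ℝ) < D := by positivity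
  have hD1 : (1 : ℝ) < D := by exact_mod_cast hD
  set K : Set ℝ := insert 0 (Set.range fun i : ℕ => ((D : ℝ)⁻¹) ^ i) with hK
  have hKc : IsCompact K := by
    apply Filter.Tendsto.isCompact_insert_range
    exact tendsto_pow_atTop_nhds_zero_of_lt_one (by positivity) (inv_lt_one_of_one_lt₀ hD1)
  have hKq : ∀ t ∈ K, ∃ q : ℚ, (q : ℝ) = t := by
    rintro t (rfl | ⟨i, rfl⟩)
    · exact ⟨0, by simp⟩
    · exact ⟨((D : ℚ)⁻¹) ^ i, by push_cast; rfl⟩
  -- one index
  have one : ∀ j, a j ≠ 0 → ∃ δ : ℝ, 0 < δ ∧ ∀ t : ι → ℝ, (∀ k, t k ∈ K) → t j = 1 →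
      δ ≤ |∑ k, (a k : ℝ) * G k * t k| := by
    intro j hj
    set C : Set (ι → ℝ) := Set.pi Set.univ (fun _ => K) ∩ {t | t j = 1} with hC
    have hCc : IsCompact C := (isCompact_univ_pi fun _ => hKc).inter_right
      (isClosed_eq (continuous_apply j) continuous_const)
    have hcont : Continuous fun t : ι → ℝ => |∑ k, (a k : ℝ) * G k * t k| := by fun_prop
    rcases C.eq_empty_or_nonempty with he | hne
    · refine ⟨1, one_pos, fun t ht htj => ?_⟩
      exact absurd (show t ∈ C from ⟨fun k _ => ht k, htj⟩) (by rw [he]; exact Set.notMem_empty _)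
    · obtain ⟨t0, ht0, hmin⟩ := hCc.exists_isMinOn hne hcont.continuousOn
      refine ⟨|∑ k, (a k : ℝ) * G k * t0 k|, ?_, fun t ht htj => hmin (show t ∈ C from ⟨fun k _ => ht k, htj⟩)⟩
      rw [abs_pos]
      intro h0
      choose q hq using fun k => hKq (t0 k) (ht0.1 k (Set.mem_univ k))
      have h1 : ∑ k, ((a k : ℚ) * q k) • G k = 0 := by
        rw [← h0]
        refine Finset.sum_congr rfl fun k _ => ?_
        rw [Rat.smul_def]
        push_cast
        rw [hq k]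
        ring
      have h2 := (Fintype.linearIndependent_iff.1 hG) _ h1 j
      have h3 : q j = 1 := by
        have : (q j : ℝ) = 1 := by rw [hq j]; exact ht0.2
        exact_mod_cast this
      rw [h3, mul_one] at h2
      exact hj (by exact_mod_cast h2)
  choose! δ hδ0 hδ using one
  obtain ⟨j0, hj0⟩ : ∃ j, a j ≠ 0 := by
    by_contra h
    push Not at h
    exact ha (funext h)
  set s : Finset ι := Finset.univ.filter fun j => a j ≠ 0 with hs
  have hsne : s.Nonempty := ⟨j0, by simp [hs, hj0]⟩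
  obtain ⟨j1, hj1, hj1min⟩ := Finset.exists_min_image s δ hsne
  have hj1' : a j1 ≠ 0 := (Finset.mem_filter.1 hj1).2
  refine ⟨δ j1, hδ0 j1 hj1', fun m j hj => ?_⟩
  obtain ⟨l, hl, hlmax⟩ := Finset.exists_max_image s m hsne
  have hl' : a l ≠ 0 := (Finset.mem_filter.1 hl).2
  set t : ι → ℝ := fun k => if a k = 0 then 0 else ((D : ℝ)⁻¹) ^ (m l - m k) with ht
  have h1 := hδ l hl' t (fun k => by
    by_cases h : a k = 0
    · simp [ht, h, hK]
    · simp only [ht, h, if_false]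
      exact Or.inr ⟨_, rfl⟩) (by simp [ht, hl'])
  have h2 : ∑ k, (a k : ℝ) * G k * (D : ℝ) ^ (m k) = (∑ k, (a k : ℝ) * G k * t k) * (D : ℝ) ^ (m l) := by
    rw [Finset.sum_mul]
    refine Finset.sum_congr rfl fun k _ => ?_
    by_cases h : a k = 0
    · simp [h]
    · have hmk : m k ≤ m l := hlmax k (by simp [hs, h])
      have h3 : (D : ℝ) ^ (m l) = (D : ℝ) ^ (m l - m k) * (D : ℝ) ^ (m k) := by
        rw [← pow_add]
        congr 1
        omega
      simp only [ht, h, if_false]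
      rw [h3, inv_pow]
      field_simp
  rw [h2, abs_mul, abs_of_pos (by positivity : (0 : ℝ) < (D : ℝ) ^ (m l))]
  have h4 : δ j1 ≤ |∑ k, (a k : ℝ) * G k * t k| := (hj1min l hl).trans h1
  have h5 : (D : ℝ) ^ (m j) ≤ (D : ℝ) ^ (m l) := pow_le_pow_right₀ hD1.le (hlmax j (by simp [hs, hj]))
  exact mul_le_mul h4 h5 (by positivity) (abs_nonneg _)


/-- In every direction the logarithm of the monomial tends to infinity in absolute value. -/
theorem dir {ι : Type} [Fintype ι] [DecidableEq ι] (G : ι → ℝ) (hG : LinearIndependent ℚ G) (D : ℕ) (hD : 2 ≤ D)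
    (e : ι → ℕ) (he : ∀ k, 1 ≤ e k) (u : ι → ℕ → ℝ)
    (hu : ∀ k, Tendsto (fun n => u k n / (D : ℝ) ^ (e k * n)) atTop (𝓝 (G k)))
    (a : ι → ℤ) (ha : a ≠ 0) (L : ℝ) :
    ∀ᶠ n : ι → ℕ in atTop, L ≤ |∑ k, (a k : ℝ) * u k (n k)| := by
  have hD0 : (0 : ℝ) < D := by positivity
  have hD1 : (1 : ℝ) < D := by exact_mod_cast hD
  obtain ⟨δ, hδ, hlow⟩ := lower G hG D hD a ha
  set A : ℝ := ∑ k, |(a k : ℝ)| + 1 with hA
  have hA0 : 0 < A := by
    have : 0 ≤ ∑ k, |(a k : ℝ)| := Finset.sum_nonneg fun k _ => abs_nonneg _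
    linarith
  set ε : ℝ := δ / (2 * A) with hε
  have hε0 : 0 < ε := by positivity
  have hcoord : ∀ k : ι, Tendsto (fun n : ι → ℕ => n k) atTop atTop := fun k =>
    tendsto_atTop.2 fun b => eventually_atTop.2 ⟨fun _ => b, fun n hn => hn k⟩
  have h1 : ∀ k, ∀ᶠ n : ι → ℕ in atTop, |u k (n k) - G k * (D : ℝ) ^ (e k * n k)| ≤ ε * (D : ℝ) ^ (e k * n k) := by
    intro k
    have h2 : ∀ᶠ n : ℕ in atTop, |u k n - G k * (D : ℝ) ^ (e k * n)| ≤ ε * (D : ℝ) ^ (e k * n) := by
      have h3 := (Metric.tendsto_nhds.1 (hu k)) ε hε0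
      filter_upwards [h3] with n hn
      rw [Real.dist_eq] at hn
      have h4 : (0 : ℝ) < (D : ℝ) ^ (e k * n) := by positivity
      have h5 : u k n - G k * (D : ℝ) ^ (e k * n) = (u k n / (D : ℝ) ^ (e k * n) - G k) * (D : ℝ) ^ (e k * n) := by
        field_simp
      rw [h5, abs_mul, abs_of_pos h4]
      exact mul_le_mul_of_nonneg_right hn.le h4.le
    exact (hcoord k).eventually h2
  obtain ⟨j0, hj0⟩ : ∃ j, a j ≠ 0 := by
    by_contra h
    push Not at h
    exact ha (funext h)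
  have h6 : ∀ᶠ n : ι → ℕ in atTop, ∀ k, L ≤ δ / 2 * (D : ℝ) ^ (e k * n k) := by
    rw [eventually_all]
    intro k
    have h7 : Tendsto (fun n : ℕ => δ / 2 * (D : ℝ) ^ n) atTop atTop :=
      (tendsto_pow_atTop_atTop_of_one_lt hD1).const_mul_atTop (by positivity)
    have h8 : ∀ᶠ n : ℕ in atTop, L ≤ δ / 2 * (D : ℝ) ^ n := h7.eventually_ge_atTop L
    filter_upwards [(hcoord k).eventually h8] with n hn
    refine hn.trans (mul_le_mul_of_nonneg_left (pow_le_pow_right₀ hD1.le ?_) (by positivity))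
    exact Nat.le_mul_of_pos_left _ (he k)
  filter_upwards [eventually_all.2 h1, h6] with n hn1 hn2
  set s : Finset ι := Finset.univ.filter fun j => a j ≠ 0 with hs
  have hsne : s.Nonempty := ⟨j0, by simp [hs, hj0]⟩
  obtain ⟨l, hl, hlmax⟩ := Finset.exists_max_image s (fun k => e k * n k) hsne
  have hl' : a l ≠ 0 := (Finset.mem_filter.1 hl).2
  have h9 := hlow (fun k => e k * n k) l hl'
  set Z : ℝ := (D : ℝ) ^ (e l * n l) with hZ
  have hZ0 : 0 < Z := by positivity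
  have h10 : |∑ k, (a k : ℝ) * G k * (D : ℝ) ^ (e k * n k) - ∑ k, (a k : ℝ) * u k (n k)| ≤ δ / 2 * Z := by
    rw [← Finset.sum_sub_distrib]
    refine (Finset.abs_sum_le_sum_abs _ _).trans ?_
    have h11 : ∀ k ∈ Finset.univ, |(a k : ℝ) * G k * (D : ℝ) ^ (e k * n k) - (a k : ℝ) * u k (n k)| ≤ |(a k : ℝ)| * (ε * Z) := by
      intro k _
      by_cases hk : a k = 0
      · simp [hk]
      · have h12 : (a k : ℝ) * G k * (D : ℝ) ^ (e k * n k) - (a k : ℝ) * u k (n k)
            = -((a k : ℝ) * (u k (n k) - G k * (D : ℝ) ^ (e k * n k))) := by ring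
        rw [h12, abs_neg, abs_mul]
        refine mul_le_mul_of_nonneg_left ((hn1 k).trans ?_) (abs_nonneg _)
        exact mul_le_mul_of_nonneg_left (pow_le_pow_right₀ hD1.le (hlmax k (by simp [hs, hk]))) hε0.le
    refine (Finset.sum_le_sum h11).trans ?_
    rw [← Finset.sum_mul]
    have h13 : ∑ k, |(a k : ℝ)| ≤ A := by rw [hA]; linarith
    have h14 : A * (ε * Z) = δ / 2 * Z := by
      rw [hε]
      field_simp
    rw [← h14]
    exact mul_le_mul_of_nonneg_right h13 (by positivity)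
  have h15 : |∑ k, (a k : ℝ) * G k * (D : ℝ) ^ (e k * n k)| - |∑ k, (a k : ℝ) * u k (n k)| ≤ δ / 2 * Z :=
    (abs_sub_abs_le_abs_sub _ _).trans h10
  have h16 := hn2 l
  linarith

end Pool.Agent.Run7.h942.SO
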