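import Mathlib
set_option autoImplicit false
open Filter Topology
namespace Pool.Agent.Run7.h942.SO

/-- two-sided bound of a polynomial far out -/
theorem poly_bound (f : Polynomial ℂ) (hf : 2 ≤ f.natDegree) :
    ∃ R C : ℝ, 1 ≤ R ∧ ∀ z : ℂ, R ≤ ‖z‖ → |Real.log ‖f.eval z‖ - f.natDegree * Real.log ‖z‖| ≤ C := by
  set d := f.natDegree with hd
  have hf0 : f ≠ 0 := by
    rintro rfl
    simp at hd
    omega
  have ha : 0 < ‖f.leadingCoeff‖ := norm_pos_iff.2 (Polynomial.leadingCoeff_ne_zero.2 hf0)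
  set a := ‖f.leadingCoeff‖ with hadef
  set B : ℝ := ∑ i ∈ Finset.range d, ‖f.coeff i‖ with hB
  have hB0 : 0 ≤ B := Finset.sum_nonneg fun i _ => norm_nonneg _
  set R : ℝ := max 1 (2 * B / a) with hR
  refine ⟨R, |Real.log (a / 2)| + |Real.log (a + B)|, le_max_left _ _, fun z hz => ?_⟩
  have hz1 : 1 ≤ ‖z‖ := (le_max_left _ _).trans hz
  have hz2 : 2 * B / a ≤ ‖z‖ := (le_max_right _ _).trans hz
  have hz0 : 0 < ‖z‖ := by linarith
  have hsplit : f.eval z = ∑ i ∈ Finset.range d, f.coeff i * z ^ i + f.leadingCoeff * z ^ d := by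
    rw [Polynomial.eval_eq_sum_range, Finset.sum_range_succ]
    rfl
  have hd1 : 1 ≤ d := by omega
  have hlow : ‖∑ i ∈ Finset.range d, f.coeff i * z ^ i‖ ≤ B * ‖z‖ ^ (d - 1) := by
    refine (norm_sum_le _ _).trans ?_
    rw [hB, Finset.sum_mul]
    refine Finset.sum_le_sum fun i hi => ?_
    rw [norm_mul, norm_pow]
    exact mul_le_mul_of_nonneg_left (pow_le_pow_right₀ hz1 (by have := Finset.mem_range.1 hi; omega)) (norm_nonneg _)
  have hpow : ‖z‖ ^ d = ‖z‖ ^ (d - 1) * ‖z‖ := by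
    rw [← pow_succ]
    congr 1
    omega
  have hp0 : 0 < ‖z‖ ^ (d - 1) := by positivity
  have hlead : ‖f.leadingCoeff * z ^ d‖ = a * ‖z‖ ^ d := by rw [norm_mul, norm_pow]
  have hBz : B * ‖z‖ ^ (d - 1) ≤ a / 2 * ‖z‖ ^ d := by
    rw [hpow]
    have h1 : B ≤ a / 2 * ‖z‖ := by
      rw [div_le_iff₀ ha] at hz2
      linarith
    calc B * ‖z‖ ^ (d - 1) ≤ (a / 2 * ‖z‖) * ‖z‖ ^ (d - 1) := mul_le_mul_of_nonneg_right h1 hp0.le
      _ = a / 2 * (‖z‖ ^ (d - 1) * ‖z‖) := by ring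
  have hBz2 : B * ‖z‖ ^ (d - 1) ≤ B * ‖z‖ ^ d :=
    mul_le_mul_of_nonneg_left (pow_le_pow_right₀ hz1 (by omega)) hB0
  have hlo : a / 2 * ‖z‖ ^ d ≤ ‖f.eval z‖ := by
    rw [hsplit]
    have := norm_sub_le_norm_add (f.leadingCoeff * z ^ d) (∑ i ∈ Finset.range d, f.coeff i * z ^ i)
    rw [add_comm (f.leadingCoeff * z ^ d)] at this
    linarith
  have hup : ‖f.eval z‖ ≤ (a + B) * ‖z‖ ^ d := by
    rw [hsplit]
    refine (norm_add_le _ _).trans ?_
    rw [hlead]
    linarith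
  have hzd : 0 < ‖z‖ ^ d := by positivity
  have hf1 : 0 < ‖f.eval z‖ := lt_of_lt_of_le (by positivity) hlo
  have l1 : Real.log (a / 2) + d * Real.log ‖z‖ ≤ Real.log ‖f.eval z‖ := by
    rw [← Real.log_pow, ← Real.log_mul (by positivity) hzd.ne']
    exact Real.log_le_log (by positivity) hlo
  have l2 : Real.log ‖f.eval z‖ ≤ Real.log (a + B) + d * Real.log ‖z‖ := by
    rw [← Real.log_pow, ← Real.log_mul (by positivity) hzd.ne']
    exact Real.log_le_log hf1 hup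
  rw [abs_le]
  have m1 := neg_abs_le (Real.log (a / 2))
  have m2 := le_abs_self (Real.log (a + B))
  have m3 := abs_nonneg (Real.log (a / 2))
  have m4 := abs_nonneg (Real.log (a + B))
  constructor <;> linarith

/-- The escape rate of a point which escapes to infinity. -/
theorem escape (f : Polynomial ℂ) (hf : 2 ≤ f.natDegree) (α : ℂ)
    (hα : Tendsto (fun n => ‖(fun z => f.eval z)^[n] α‖) atTop atTop) :
    ∃ G : ℝ, 0 < G ∧ ∃ C : ℝ, ∀ᶠ n : ℕ in atTop,
      |Real.log ‖(fun z => f.eval z)^[n] α‖ - G * (f.natDegree : ℝ) ^ n| ≤ C := by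
  obtain ⟨R, C, hR, hC⟩ := poly_bound f hf
  set d := f.natDegree with hd
  set z : ℕ → ℂ := fun n => (fun z => f.eval z)^[n] α with hz
  have hd2 : (2 : ℝ) ≤ d := by exact_mod_cast hf
  have hd0 : (0 : ℝ) < d := by linarith
  have hC0 : 0 ≤ C := (abs_nonneg _).trans (hC (R : ℂ) (by rw [Complex.norm_real, Real.norm_of_nonneg (by linarith)]))
  obtain ⟨m, hm⟩ := eventually_atTop.1 (hα.eventually_ge_atTop R)
  set u : ℕ → ℝ := fun n => Real.log ‖z (m + n)‖ / (d : ℝ) ^ (m + n) with hu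
  have hstep : ∀ n, dist (u n) (u (n + 1)) ≤ C * (1 / (d : ℝ)) ^ n := by
    intro n
    have h1 := hC (z (m + n)) (hm (m + n) (by omega))
    have h2 : f.eval (z (m + n)) = z (m + (n + 1)) := by
      rw [hz]
      simp only
      rw [← add_assoc, Function.iterate_succ_apply']
    rw [h2] at h1
    have hp : (0 : ℝ) < (d : ℝ) ^ (m + n) := by positivity
    have h3 : u (n + 1) - u n = (Real.log ‖z (m + (n + 1))‖ - d * Real.log ‖z (m + n)‖) / (d : ℝ) ^ (m + n + 1) := by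
      simp only [hu]
      rw [← add_assoc, pow_succ]
      field_simp
    rw [dist_comm, Real.dist_eq, h3, abs_div, abs_of_pos (by positivity : (0 : ℝ) < (d : ℝ) ^ (m + n + 1))]
    rw [div_le_iff₀ (by positivity), one_div, inv_pow]
    have h4 : (d : ℝ) ^ (m + n + 1) = (d : ℝ) ^ n * (d : ℝ) ^ (m + 1) := by
      rw [← pow_add]
      congr 1
      omega
    rw [h4]
    have h5 : C * ((d : ℝ) ^ n)⁻¹ * ((d : ℝ) ^ n * (d : ℝ) ^ (m + 1)) = C * (d : ℝ) ^ (m + 1) := by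
      field_simp
    rw [h5]
    refine h1.trans (le_mul_of_one_le_right hC0 (one_le_pow₀ (by linarith)))
  have hr : 1 / (d : ℝ) < 1 := by
    rw [div_lt_one hd0]
    linarith
  have hcauchy := cauchySeq_of_le_geometric _ _ hr hstep
  obtain ⟨G, hG⟩ := cauchySeq_tendsto_of_complete hcauchy
  have hdist := dist_le_of_le_geometric_of_tendsto _ _ hr hstep hG
  set C' : ℝ := C / (1 - 1 / (d : ℝ)) * (d : ℝ) ^ m with hC'
  have hmain : ∀ n, |Real.log ‖z (m + n)‖ - G * (d : ℝ) ^ (m + n)| ≤ C' := by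
    intro n
    have h1 := hdist n
    rw [Real.dist_eq] at h1
    have hp : (0 : ℝ) < (d : ℝ) ^ (m + n) := by positivity
    have h2 : Real.log ‖z (m + n)‖ - G * (d : ℝ) ^ (m + n) = (u n - G) * (d : ℝ) ^ (m + n) := by
      simp only [hu]
      field_simp
    rw [h2, abs_mul, abs_of_pos hp]
    refine (mul_le_mul_of_nonneg_right h1 hp.le).trans (le_of_eq ?_)
    rw [hC', pow_add, one_div, inv_pow]
    have : (1 - (d : ℝ)⁻¹) ≠ 0 := by
      rw [one_div] at hr
      linarith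
    field_simp
  have hev : ∀ᶠ n : ℕ in atTop, |Real.log ‖z n‖ - G * (d : ℝ) ^ n| ≤ C' := by
    refine eventually_atTop.2 ⟨m, fun n hn => ?_⟩
    obtain ⟨k, rfl⟩ := Nat.exists_eq_add_of_le hn
    exact hmain k
  refine ⟨G, ?_, C', hev⟩
  have hlog : Tendsto (fun n => Real.log ‖z n‖) atTop atTop := Real.tendsto_log_atTop.comp hα
  obtain ⟨n, hn1, hn2⟩ := (hev.and (hlog.eventually_gt_atTop C')).exists
  rw [abs_le] at hn1
  have h3 : 0 < G * (d : ℝ) ^ n := by linarith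
  exact (pos_iff_pos_of_mul_pos h3).2 (by positivity)

end Pool.Agent.Run7.h942.SO
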