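import Pool.Agent.Run7.h942.SO.Main
import Pool.Agent.Run7.h942.SO.Esc
set_option autoImplicit false
open Filter Topology
namespace Pool.Agent.Run7.h942.SO

/-- finite orbits are eventually periodic -/
theorem ev_per (g : ℂ → ℂ) (α : ℂ) (h : (Set.range fun n : ℕ => g^[n] α).Finite) :
    ∃ m q : ℕ, 1 ≤ q ∧ ∀ n, m ≤ n → g^[n + q] α = g^[n] α := by
  have h1 : ¬ Function.Injective (fun n : ℕ => g^[n] α) := fun hinj => Set.infinite_range_of_injective hinj h
  have h2 : ∃ a b : ℕ, a < b ∧ g^[a] α = g^[b] α := by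
    unfold Function.Injective at h1
    push Not at h1
    obtain ⟨a, b, hab, hne⟩ := h1
    rcases lt_or_gt_of_ne hne with h | h
    · exact ⟨a, b, h, hab⟩
    · exact ⟨b, a, h, hab.symm⟩
  obtain ⟨a, b, hab, he⟩ := h2
  refine ⟨a, b - a, by omega, fun n hn => ?_⟩
  have e1 : n + (b - a) = (n - a) + b := by omega
  have e2 : n = (n - a) + a := by omega
  rw [e1, Function.iterate_add_apply, ← he, ← Function.iterate_add_apply, ← e2]

/-- a finite union of boxes is a finite union of cosets -/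
theorem FU_cosets {N : ℕ} {S : Set (Fin N → ℕ)} (hS : FU S) :
    ∃ (k : ℕ) (γ : Fin k → Fin N → ℕ) (H : Fin k → AddSubgroup (Fin N → ℤ)),
      S = {n : Fin N → ℕ | ∃ j : Fin k, ∃ h ∈ H j, (∀ i, 0 ≤ h i) ∧ ∀ i, (n i : ℤ) = (γ j i : ℤ) + h i} := by
  obtain ⟨F, rfl⟩ := hS
  obtain ⟨e⟩ : Nonempty (F ≃ Fin F.card) := ⟨F.equivFin⟩
  refine ⟨F.card, fun j => (e.symm j).1.1,
    fun j => AddSubgroup.pi Set.univ (fun i => AddSubgroup.zmultiples (((e.symm j).1.2 i : ℕ) : ℤ)), ?_⟩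
  ext n
  simp only [Set.mem_setOf_eq]
  constructor
  · rintro ⟨b, hb, hn⟩
    refine ⟨e ⟨b, hb⟩, fun i => (n i : ℤ) - b.1 i, ?_, ?_, ?_⟩
    · rw [AddSubgroup.mem_pi]
      intro i _
      rw [Equiv.symm_apply_apply, AddSubgroup.mem_zmultiples_iff]
      obtain ⟨h, hh⟩ := hn i
      refine ⟨h, ?_⟩
      rw [hh]
      push_cast
      rw [smul_eq_mul]
      ring
    · intro i
      obtain ⟨h, hh⟩ := hn i
      show (0 : ℤ) ≤ (n i : ℤ) - b.1 i
      rw [hh]
      push_cast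
      have : (0 : ℤ) ≤ (b.2 i : ℤ) * h := by positivity
      linarith
    · intro i
      rw [Equiv.symm_apply_apply]
      show (n i : ℤ) = (b.1 i : ℤ) + ((n i : ℤ) - b.1 i)
      ring
  · rintro ⟨j, h, hh, h0, hn⟩
    refine ⟨(e.symm j).1, (e.symm j).2, fun i => ?_⟩
    rw [AddSubgroup.mem_pi] at hh
    obtain ⟨z, hz⟩ := AddSubgroup.mem_zmultiples_iff.1 (hh i (Set.mem_univ i))
    rw [smul_eq_mul] at hz
    have h1 := h0 i
    have h2 := hn i
    by_cases hp : (e.symm j).1.2 i = 0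
    · refine ⟨0, ?_⟩
      rw [hp] at hz
      simp at hz
      rw [← hz] at h2
      simp only [mul_zero, add_zero] at h2 ⊢
      exact_mod_cast h2
    · have hz0 : 0 ≤ z := by
        by_contra hneg
        push Not at hneg
        have hpp : (0 : ℤ) < ((e.symm j).1.2 i : ℤ) := by exact_mod_cast Nat.pos_of_ne_zero hp
        have : z * ((e.symm j).1.2 i : ℤ) < 0 := mul_neg_of_neg_of_pos hneg hpp
        linarith
      refine ⟨z.toNat, ?_⟩
      have h3 : ((z.toNat : ℕ) : ℤ) = z := Int.toNat_of_nonneg hz0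
      zify
      rw [h3, h2, ← hz]
      ring

/-- the Diophantine condition gives independence of the orbits -/
theorem ind_of_H {N : ℕ} (x : Fin N → ℕ → ℂ) (d : Fin N → ℕ) (E : Finset (Fin N)) (G : Fin N → ℝ)
    (hx : ∀ i ∈ E, Tendsto (fun n => ‖x i n‖) atTop atTop)
    (hG : ∀ i ∈ E, ∃ C : ℝ, ∀ᶠ n : ℕ in atTop, |Real.log ‖x i n‖ - G i * (d i : ℝ) ^ n| ≤ C)
    (hH : ∀ a : Fin N → ℤ, a ≠ 0 → (∀ i, i ∉ E → a i = 0) →
      Tendsto (fun n : Fin N → ℕ => |∑ i, (a i : ℝ) * G i * (d i : ℝ) ^ (n i)|) atTop atTop) :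
    Ind (fun k : {k : Fin N // k ∈ E} => x k.1) := by
  classical
  refine ⟨fun k => ?_, fun a ha L => ?_⟩
  · filter_upwards [(hx k.1 k.2).eventually_gt_atTop 0] with n hn
    exact norm_pos_iff.1 hn
  · set b : Fin N → ℤ := fun i => if h : i ∈ E then a ⟨i, h⟩ else 0 with hb
    have hbE : ∀ k : {k : Fin N // k ∈ E}, b k.1 = a k := fun k => by simp [hb, k.2]
    have hb0 : b ≠ 0 := by
      intro h
      apply ha
      funext k
      rw [← hbE k, h]
      rfl
    have hbz : ∀ i, i ∉ E → b i = 0 := fun i hi => by simp [hb, hi]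
    choose! C hC using hG
    set M : ℝ := ∑ k : {k : Fin N // k ∈ E}, |(a k : ℝ)| * C k.1 with hM
    obtain ⟨n0, hn0⟩ := eventually_atTop.1 ((hH b hb0 hbz).eventually_ge_atTop (L + M))
    have hev : ∀ k : {k : Fin N // k ∈ E}, ∃ m, ∀ n, m ≤ n →
        |Real.log ‖x k.1 n‖ - G k.1 * (d k.1 : ℝ) ^ n| ≤ C k.1 := fun k => eventually_atTop.1 (hC k.1 k.2)
    choose m hm using hev
    refine eventually_atTop.2 ⟨fun k => max (n0 k.1) (m k), fun n hn => ?_⟩
    set n' : Fin N → ℕ := fun i => if h : i ∈ E then n ⟨i, h⟩ else n0 i with hn'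
    have hnE : ∀ k : {k : Fin N // k ∈ E}, n' k.1 = n k := fun k => by simp [hn', k.2]
    have h1 := hn0 n' (fun i => by
      by_cases h : i ∈ E
      · have := hn ⟨i, h⟩
        simp only [hn', h, dif_pos]
        exact (le_max_left _ _).trans this
      · simp [hn', h])
    have h2 : ∑ i, (b i : ℝ) * G i * (d i : ℝ) ^ (n' i) = ∑ k : {k : Fin N // k ∈ E}, (a k : ℝ) * G k.1 * (d k.1 : ℝ) ^ (n k) := by
      rw [← Finset.sum_subset (Finset.subset_univ E) (fun i _ hi => by rw [hbz i hi]; simp), ← Finset.sum_coe_sort E]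
      refine Finset.sum_congr rfl fun k _ => ?_
      rw [hbE, hnE]
    rw [h2] at h1
    have h3 : |∑ k : {k : Fin N // k ∈ E}, (a k : ℝ) * G k.1 * (d k.1 : ℝ) ^ (n k)
        - ∑ k : {k : Fin N // k ∈ E}, (a k : ℝ) * Real.log ‖x k.1 (n k)‖| ≤ M := by
      rw [← Finset.sum_sub_distrib, hM]
      refine (Finset.abs_sum_le_sum_abs _ _).trans (Finset.sum_le_sum fun k _ => ?_)
      have h4 := hm k (n k) ((le_max_right _ _).trans (hn k))
      have h5 : (a k : ℝ) * G k.1 * (d k.1 : ℝ) ^ (n k) - (a k : ℝ) * Real.log ‖x k.1 (n k)‖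
          = -((a k : ℝ) * (Real.log ‖x k.1 (n k)‖ - G k.1 * (d k.1 : ℝ) ^ (n k))) := by ring
      rw [h5, abs_neg, abs_mul]
      exact mul_le_mul_of_nonneg_left h4 (abs_nonneg _)
    have h6 := abs_sub_abs_le_abs_sub (∑ k : {k : Fin N // k ∈ E}, (a k : ℝ) * G k.1 * (d k.1 : ℝ) ^ (n k))
      (∑ k : {k : Fin N // k ∈ E}, (a k : ℝ) * Real.log ‖x k.1 (n k)‖)
    linarith

/-- rational independence and powers of one number give the Diophantine condition -/
theorem H_of_lin {N : ℕ} (d : Fin N → ℕ) (E : Finset (Fin N)) (G : Fin N → ℝ) (D : ℕ) (hD : 2 ≤ D)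
    (hd : ∀ i ∈ E, 2 ≤ d i ∧ ∃ e : ℕ, d i = D ^ e)
    (hG : LinearIndependent ℚ (fun i : {i : Fin N // i ∈ E} => G i.1)) :
    ∀ a : Fin N → ℤ, a ≠ 0 → (∀ i, i ∉ E → a i = 0) →
      Tendsto (fun n : Fin N → ℕ => |∑ i, (a i : ℝ) * G i * (d i : ℝ) ^ (n i)|) atTop atTop := by
  classical
  intro a ha haE
  obtain ⟨j, hj⟩ : ∃ j, a j ≠ 0 := by
    by_contra h
    push Not at h
    exact ha (funext h)
  have hjE : j ∈ E := by
    by_contra h
    exact hj (haE j h)
  have hD1 : (1 : ℝ) < D := by exact_mod_cast hD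
  choose! e he using fun i (hi : i ∈ E) => (hd i hi).2
  obtain ⟨δ, hδ, hlow⟩ := lower (fun i : {i : Fin N // i ∈ E} => G i.1) hG D hD (fun i => a i.1)
    (fun h => hj (congrFun h ⟨j, hjE⟩))
  have hej : 1 ≤ e j := by
    rcases Nat.eq_zero_or_pos (e j) with h | h
    · have h1 := (hd j hjE).1
      rw [he j hjE, h, pow_zero] at h1
      omega
    · exact h
  have hbound : ∀ n : Fin N → ℕ, δ * (D : ℝ) ^ (n j) ≤ |∑ i, (a i : ℝ) * G i * (d i : ℝ) ^ (n i)| := by
    intro n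
    have h1 := hlow (fun i => e i.1 * n i.1) ⟨j, hjE⟩ hj
    have h2 : ∑ i, (a i : ℝ) * G i * (d i : ℝ) ^ (n i)
        = ∑ k : {k : Fin N // k ∈ E}, (a k.1 : ℝ) * G k.1 * (D : ℝ) ^ (e k.1 * n k.1) := by
      rw [← Finset.sum_subset (Finset.subset_univ E) (fun i _ hi => by rw [haE i hi]; simp), ← Finset.sum_coe_sort E]
      refine Finset.sum_congr rfl fun k _ => ?_
      rw [he k.1 k.2]
      push_cast
      rw [← pow_mul]
    rw [h2]
    refine le_trans (mul_le_mul_of_nonneg_left (pow_le_pow_right₀ hD1.le ?_) hδ.le) h1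
    exact Nat.le_mul_of_pos_left _ hej
  refine tendsto_atTop_mono hbound ?_
  have h7 : Tendsto (fun n : ℕ => δ * (D : ℝ) ^ n) atTop atTop :=
    (tendsto_pow_atTop_atTop_of_one_lt hD1).const_mul_atTop hδ
  exact h7.comp (tendsto_atTop.2 fun b => eventually_atTop.2 ⟨fun _ => b, fun n hn => hn j⟩)

theorem escape_lim (f : Polynomial ℂ) (hf : 2 ≤ f.natDegree) (α : ℂ)
    (hα : Tendsto (fun n => ‖(fun z => f.eval z)^[n] α‖) atTop atTop) :
    ∃ G : ℝ, 0 < G ∧
      Tendsto (fun n : ℕ => Real.log ‖(fun z => f.eval z)^[n] α‖ / (f.natDegree : ℝ) ^ n) atTop (𝓝 G) := by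
  obtain ⟨G', hG', C, hC⟩ := escape f hf α hα
  refine ⟨G', hG', ?_⟩
  have hd0 : (1 : ℝ) < (f.natDegree : ℝ) := by exact_mod_cast hf
  rw [tendsto_iff_norm_sub_tendsto_zero]
  have hz : Tendsto (fun n : ℕ => C * (1 / (f.natDegree : ℝ)) ^ n) atTop (𝓝 0) := by
    have := (tendsto_pow_atTop_nhds_zero_of_lt_one (r := 1 / (f.natDegree : ℝ)) (by positivity)
      (by rw [div_lt_one (by linarith)]; exact hd0)).const_mul C
    simpa using this
  refine squeeze_zero' (Eventually.of_forall fun n => norm_nonneg _) ?_ hz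
  filter_upwards [hC] with n hn
  have hp : (0 : ℝ) < (f.natDegree : ℝ) ^ n := by positivity
  have h1 : Real.log ‖(fun z => f.eval z)^[n] α‖ / (f.natDegree : ℝ) ^ n - G'
      = (Real.log ‖(fun z => f.eval z)^[n] α‖ - G' * (f.natDegree : ℝ) ^ n) / (f.natDegree : ℝ) ^ n := by
    field_simp
  rw [h1, Real.norm_eq_abs, abs_div, abs_of_pos hp, one_div, inv_pow, ← div_eq_mul_inv]
  exact div_le_div_of_nonneg_right hn hp.le

theorem final {N : ℕ} (α : Fin N → ℂ) (f : Fin N → Polynomial ℂ) (E : Finset (Fin N)) (G : Fin N → ℝ)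
    (hdeg : ∀ i ∈ E, 2 ≤ (f i).natDegree)
    (hesc : ∀ i ∈ E, Tendsto (fun n => ‖(fun z => (f i).eval z)^[n] (α i)‖) atTop atTop)
    (hrate : ∀ i ∈ E, Tendsto (fun n => Real.log ‖(fun z => (f i).eval z)^[n] (α i)‖ / ((f i).natDegree : ℝ) ^ n) atTop (𝓝 (G i)))
    (hfin : ∀ i, i ∉ E → (Set.range fun n : ℕ => (fun z => (f i).eval z)^[n] (α i)).Finite)
    (hH : ∀ a : Fin N → ℤ, a ≠ 0 → (∀ i, i ∉ E → a i = 0) →
      Tendsto (fun n : Fin N → ℕ => |∑ i, (a i : ℝ) * G i * ((f i).natDegree : ℝ) ^ (n i)|) atTop atTop)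
    (T : Set (MvPolynomial (Fin N) ℂ)) :
    ∃ (k : ℕ) (γ : Fin k → Fin N → ℕ) (H : Fin k → AddSubgroup (Fin N → ℤ)),
      {n : Fin N → ℕ | ∀ p ∈ T,
          MvPolynomial.eval (fun i => Nat.iterate (fun z => (f i).eval z) (n i) (α i)) p = 0}
        = {n : Fin N → ℕ | ∃ j : Fin k, ∃ h ∈ H j,
            (∀ i, 0 ≤ h i) ∧ ∀ i, (n i : ℤ) = (γ j i : ℤ) + h i} := by
  classical
  apply FU_cosets
  set x : Fin N → ℕ → ℂ := fun i n => (fun z => (f i).eval z)^[n] (α i) with hx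
  have hI : Ind (fun k : {k : Fin N // k ∈ E} => x k.1) := by
    refine ind_of_H x (fun i => (f i).natDegree) E G hesc ?_ hH
    intro i hi
    obtain ⟨G', hG', C, hC⟩ := escape (f i) (hdeg i hi) (α i) (hesc i hi)
    have hd0 : (1 : ℝ) < ((f i).natDegree : ℝ) := by exact_mod_cast hdeg i hi
    have hlim : Tendsto (fun n => Real.log ‖x i n‖ / ((f i).natDegree : ℝ) ^ n) atTop (𝓝 G') := by
      rw [tendsto_iff_norm_sub_tendsto_zero]
      have hz : Tendsto (fun n : ℕ => C * (1 / ((f i).natDegree : ℝ)) ^ n) atTop (𝓝 0) := by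
        have := (tendsto_pow_atTop_nhds_zero_of_lt_one (r := 1 / ((f i).natDegree : ℝ)) (by positivity)
          (by rw [div_lt_one (by linarith)]; exact hd0)).const_mul C
        simpa using this
      refine squeeze_zero' (Eventually.of_forall fun n => norm_nonneg _) ?_ hz
      filter_upwards [hC] with n hn
      have hp : (0 : ℝ) < ((f i).natDegree : ℝ) ^ n := by positivity
      have h1 : Real.log ‖x i n‖ / ((f i).natDegree : ℝ) ^ n - G'
          = (Real.log ‖x i n‖ - G' * ((f i).natDegree : ℝ) ^ n) / ((f i).natDegree : ℝ) ^ n := by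
        field_simp
      rw [h1, Real.norm_eq_abs, abs_div, abs_of_pos hp, one_div, inv_pow, ← div_eq_mul_inv]
      exact div_le_div_of_nonneg_right hn hp.le
    have hGG : G' = G i := tendsto_nhds_unique hlim (hrate i hi)
    rw [← hGG]
    exact ⟨C, hC⟩
  have hcore := core x E hI (fun k hk => ev_per _ _ (hfin k hk)) T (∅ : Finset (Fin N))ᶜ.card ∅ 0 0 rfl (by simp)
  have hset : {n : Fin N → ℕ | ∀ p ∈ T,
      MvPolynomial.eval (fun i => Nat.iterate (fun z => (f i).eval z) (n i) (α i)) p = 0} = Sl x T ∅ 0 0 := by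
    ext n
    simp [Sl, hx]
  rw [hset]
  exact hcore

end Pool.Agent.Run7.h942.SO
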