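import Pool.Agent.Run7.h942.SO.Box
set_option autoImplicit false
open Filter Topology
namespace Pool.Agent.Run7.h942.SO

/-- A nonzero polynomial does not vanish far out. -/
theorem nonvanish {κ : Type} [Fintype κ] (x : κ → ℕ → ℂ) (hx : Ind x)
    (P : MvPolynomial κ ℂ) (hP : P ≠ 0) :
    ∀ᶠ n : κ → ℕ in atTop, MvPolynomial.eval (fun k => x k (n k)) P ≠ 0 := by
  classical
  have hcoord : ∀ k : κ, Tendsto (fun n : κ → ℕ => n k) atTop atTop := fun k =>
    tendsto_atTop.2 fun b => eventually_atTop.2 ⟨fun _ => b, fun n hn => hn k⟩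
  have hx0 : ∀ k, ∀ᶠ n : κ → ℕ in atTop, x k (n k) ≠ 0 := fun k => (hcoord k).eventually (hx.1 k)
  set S := P.support with hS
  have hSne : S.Nonempty :=
    Finset.nonempty_iff_ne_empty.2 fun h => hP (MvPolynomial.support_eq_empty.1 h)
  set B : ℝ := 2 * S.card with hB
  have hcard : (0 : ℝ) < S.card := by exact_mod_cast hSne.card_pos
  have hpair : ∀ᶠ n : κ → ℕ in atTop, ∀ m ∈ S, ∀ m' ∈ S, m ≠ m' →
      Real.log B + |Real.log ‖P.coeff m‖ - Real.log ‖P.coeff m'‖| ≤
        |∑ k, (((m k : ℤ) - (m' k : ℤ) : ℤ) : ℝ) * Real.log ‖x k (n k)‖| := by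
    rw [Filter.eventually_all_finset]
    intro m _
    rw [Filter.eventually_all_finset]
    intro m' _
    by_cases h : m = m'
    · exact Eventually.of_forall fun n h' => absurd h h'
    · have h2 := hx.2 (fun k => (m k : ℤ) - (m' k : ℤ))
        (fun h3 => h (Finsupp.ext fun k => by
          have := congrFun h3 k
          simp only [Pi.zero_apply] at this
          omega)) (Real.log B + |Real.log ‖P.coeff m‖ - Real.log ‖P.coeff m'‖|)
      filter_upwards [h2] with n hn _
      exact hn
  filter_upwards [eventually_all.2 hx0, hpair] with n hn hpn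
  rw [MvPolynomial.eval_eq']
  set T : (κ →₀ ℕ) → ℂ := fun m => P.coeff m * ∏ k, x k (n k) ^ m k with hT
  have hlog : ∀ m ∈ S, Real.log ‖T m‖ = Real.log ‖P.coeff m‖ + ∑ k, (m k : ℝ) * Real.log ‖x k (n k)‖ := by
    intro m hm
    have hc : P.coeff m ≠ 0 := MvPolynomial.mem_support_iff.1 hm
    rw [hT]
    simp only [norm_mul, norm_prod, norm_pow]
    rw [Real.log_mul (norm_ne_zero_iff.2 hc) (Finset.prod_ne_zero_iff.2 fun k _ => pow_ne_zero _ (norm_ne_zero_iff.2 (hn k))),
      Real.log_prod (fun k _ => pow_ne_zero _ (norm_ne_zero_iff.2 (hn k)))]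
    simp only [Real.log_pow]
  have hTne : ∀ m ∈ S, 0 < ‖T m‖ := by
    intro m hm
    have hc : P.coeff m ≠ 0 := MvPolynomial.mem_support_iff.1 hm
    rw [norm_pos_iff]
    exact mul_ne_zero hc (Finset.prod_ne_zero_iff.2 fun k _ => pow_ne_zero _ (hn k))
  obtain ⟨M, hM, hMmax⟩ := Finset.exists_max_image S (fun m => ‖T m‖) hSne
  have hsmall : ∀ m ∈ S.erase M, ‖T m‖ ≤ ‖T M‖ / B := by
    intro m hm
    obtain ⟨hne, hmS⟩ := Finset.mem_erase.1 hm
    have h3 := hpn m hmS M hM hne
    have h4 : ∑ k, (((m k : ℤ) - (M k : ℤ) : ℤ) : ℝ) * Real.log ‖x k (n k)‖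
        = (Real.log ‖T m‖ - Real.log ‖T M‖) - (Real.log ‖P.coeff m‖ - Real.log ‖P.coeff M‖) := by
      rw [hlog m hmS, hlog M hM]
      have : ∑ k, (((m k : ℤ) - (M k : ℤ) : ℤ) : ℝ) * Real.log ‖x k (n k)‖
          = ∑ k, (m k : ℝ) * Real.log ‖x k (n k)‖ - ∑ k, (M k : ℝ) * Real.log ‖x k (n k)‖ := by
        rw [← Finset.sum_sub_distrib]
        refine Finset.sum_congr rfl fun k _ => ?_
        push_cast
        ring
      rw [this]
      ring
    rw [h4] at h3
    have h5 := abs_sub (Real.log ‖T m‖ - Real.log ‖T M‖) (Real.log ‖P.coeff m‖ - Real.log ‖P.coeff M‖)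
    have h6 : Real.log ‖T m‖ ≤ Real.log ‖T M‖ := Real.log_le_log (hTne m hmS) (hMmax m hmS)
    have h7 : Real.log B ≤ |Real.log ‖T m‖ - Real.log ‖T M‖| := by linarith
    rw [abs_of_nonpos (by linarith)] at h7
    have hB0 : 0 < B := by positivity
    have h8 : Real.log ‖T m‖ ≤ Real.log (‖T M‖ / B) := by
      rw [Real.log_div (hTne M hM).ne' hB0.ne']
      linarith
    exact (Real.log_le_log_iff (hTne m hmS) (div_pos (hTne M hM) hB0)).1 h8
  have hsum : ‖∑ m ∈ S.erase M, T m‖ ≤ ‖T M‖ / 2 := by
    refine (norm_sum_le _ _).trans ((Finset.sum_le_sum hsmall).trans ?_)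
    rw [Finset.sum_const, nsmul_eq_mul]
    have h9 : ((S.erase M).card : ℝ) ≤ S.card := by exact_mod_cast Finset.card_le_card (Finset.erase_subset _ _)
    have h10 : (S.card : ℝ) * (‖T M‖ / B) = ‖T M‖ / 2 := by
      rw [hB]
      field_simp
    rw [← h10]
    exact mul_le_mul_of_nonneg_right h9 (by positivity)
  intro h0
  rw [← Finset.add_sum_erase S T hM] at h0
  have h11 : T M = -∑ m ∈ S.erase M, T m := eq_neg_of_add_eq_zero_left h0
  have h12 : ‖T M‖ = ‖∑ m ∈ S.erase M, T m‖ := by rw [h11, norm_neg]
  have := hTne M hM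
  linarith

/-- **Core theorem.** -/
theorem core {ι : Type} [Fintype ι] [DecidableEq ι] (x : ι → ℕ → ℂ) (E : Finset ι)
    (hE : Ind (fun k : {k : ι // k ∈ E} => x k.1))
    (hper : ∀ k, k ∉ E → ∃ m q : ℕ, 1 ≤ q ∧ ∀ n, m ≤ n → x k (n + q) = x k n)
    (T : Set (MvPolynomial ι ℂ)) :
    ∀ (r : ℕ) (K : Finset ι) (c p : ι → ℕ), (Kᶜ).card = r →
      (∀ k ∈ K, ∀ h, x k (c k + p k * h) = x k (c k)) → FU (Sl x T K c p) := by
  classical
  intro r
  induction r with
  | zero =>
    intro K c p hr hK
    have hKu : K = Finset.univ := by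
      rw [← Finset.compl_eq_empty_iff]
      exact Finset.card_eq_zero.1 hr
    by_cases hz : ∀ P ∈ T, MvPolynomial.eval (fun k => x k (c k)) P = 0
    · have : Sl x T K c p = Box c p := by
        ext n
        simp only [Sl, Box, Set.mem_setOf_eq]
        constructor
        · rintro ⟨h1, _⟩ k
          exact h1 k (by rw [hKu]; exact Finset.mem_univ k)
        · intro h1
          refine ⟨fun k _ => h1 k, fun P hP => ?_⟩
          rw [← hz P hP]
          congr 1
          congr 1
          funext k
          obtain ⟨h, hh⟩ := h1 k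
          rw [hh]
          exact hK k (by rw [hKu]; exact Finset.mem_univ k) h
      rw [this]
      exact FU_box c p
    · have : Sl x T K c p = ∅ := by
        ext n
        simp only [Sl, Set.mem_setOf_eq, Set.mem_empty_iff_false, iff_false]
        rintro ⟨h1, h2⟩
        apply hz
        intro P hP
        rw [← h2 P hP]
        congr 1
        congr 1
        funext k
        obtain ⟨h, hh⟩ := h1 k (by rw [hKu]; exact Finset.mem_univ k)
        rw [hh]
        exact (hK k (by rw [hKu]; exact Finset.mem_univ k) h).symm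
      rw [this]
      exact FU_empty
  | succ r ih =>
    intro K c p hr hK
    have step : ∀ (k : ι) (_ : k ∉ K) (j q : ℕ), (∀ h, x k (j + q * h) = x k j) →
        FU (Sl x T (insert k K) (Function.update c k j) (Function.update p k q)) := by
      intro k hk j q hq
      apply ih
      · have h1 : (insert k K)ᶜ = (Kᶜ).erase k := by
          ext l
          simp [and_comm]
        rw [h1, Finset.card_erase_of_mem (by simpa using hk), hr]
        rfl
      · intro l hl h
        by_cases hne : l = k
        · subst hne
          rw [Function.update_self, Function.update_self]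
          exact hq h
        · rw [Function.update_of_ne hne, Function.update_of_ne hne]
          exact hK l (Finset.mem_of_mem_insert_of_ne hl hne) h
    by_cases hex : ∃ k, k ∉ K ∧ k ∉ E
    · obtain ⟨k, hk, hkE⟩ := hex
      obtain ⟨m, q, hq, hmq⟩ := hper k hkE
      have hperm : ∀ j, m ≤ j → ∀ h, x k (j + q * h) = x k j := by
        intro j hj h
        induction h with
        | zero => simp
        | succ h ih2 =>
          rw [Nat.mul_succ, ← add_assoc, hmq _ (by omega), ih2]
      have hset : Sl x T K c p = {n | ∃ j ∈ Finset.range (m + q),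
          n ∈ Sl x T (insert k K) (Function.update c k j) (Function.update p k (if j < m then 0 else q))} := by
        ext n
        simp only [Set.mem_setOf_eq]
        constructor
        · intro hn
          by_cases hnm : n k < m
          · exact ⟨n k, Finset.mem_range.2 (by omega), (Sl_insert x T K c p k hk _ _ n).2 ⟨hn, 0, by simp⟩⟩
          · refine ⟨m + (n k - m) % q, Finset.mem_range.2 (by have := Nat.mod_lt (n k - m) (show 0 < q by omega); omega),
              (Sl_insert x T K c p k hk _ _ n).2 ⟨hn, (n k - m) / q, ?_⟩⟩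
            have h1 := Nat.mod_add_div (n k - m) q
            rw [if_neg (by omega)]
            omega
        · rintro ⟨j, _, hn⟩
          exact ((Sl_insert x T K c p k hk _ _ n).1 hn).1
      rw [hset]
      apply FU_bi
      intro j _
      apply step k hk
      intro h
      by_cases hjm : j < m
      · simp [hjm]
      · rw [if_neg hjm]
        exact hperm j (by omega) h
    · push Not at hex
      set κ := {k : ι // k ∉ K} with hκ
      set sub : MvPolynomial ι ℂ →ₐ[ℂ] MvPolynomial κ ℂ :=
        MvPolynomial.aeval (fun k => if h : k ∈ K then MvPolynomial.C (x k (c k)) else MvPolynomial.X (⟨k, h⟩ : κ)) with hsub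
      have heval : ∀ n : ι → ℕ, (∀ k ∈ K, ∃ h : ℕ, n k = c k + p k * h) → ∀ P : MvPolynomial ι ℂ,
          MvPolynomial.eval (fun k : κ => x k.1 (n k.1)) (sub P) = MvPolynomial.eval (fun k => x k (n k)) P := by
        intro n hn P
        induction P using MvPolynomial.induction_on with
        | C a => simp [hsub]
        | add P Q hP hQ => rw [map_add, map_add, map_add, hP, hQ]
        | mul_X P k hP =>
          rw [map_mul, map_mul, map_mul, hP]
          congr 1
          rw [hsub, MvPolynomial.aeval_X, MvPolynomial.eval_X]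
          by_cases hk : k ∈ K
          · obtain ⟨h, hh⟩ := hn k hk
            rw [dif_pos hk, MvPolynomial.eval_C, hh]
            exact (hK k hk h).symm
          · rw [dif_neg hk, MvPolynomial.eval_X]
      by_cases hz : ∀ P ∈ T, sub P = 0
      · have : Sl x T K c p = Box (fun k => if k ∈ K then c k else 0) (fun k => if k ∈ K then p k else 1) := by
          ext n
          simp only [Sl, Box, Set.mem_setOf_eq]
          constructor
          · rintro ⟨h1, _⟩ k
            by_cases hk : k ∈ K
            · simpa [hk] using h1 k hk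
            · exact ⟨n k, by simp [hk]⟩
          · intro h1
            have h2 : ∀ k ∈ K, ∃ h : ℕ, n k = c k + p k * h := by
              intro k hk
              simpa [hk] using h1 k
            refine ⟨h2, fun P hP => ?_⟩
            rw [← heval n h2 P, hz P hP, map_zero]
        rw [this]
        exact FU_box _ _
      · push Not at hz
        obtain ⟨P, hPT, hP⟩ := hz
        have hI : Ind (fun k : κ => x k.1) :=
          Ind_comp (fun k : {k : ι // k ∈ E} => x k.1) hE (fun k : κ => ⟨k.1, hex k.1 k.2⟩)
            (fun a b h => Subtype.ext (by simpa using h))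
        obtain ⟨n0, hn0⟩ := eventually_atTop.1 (nonvanish _ hI (sub P) hP)
        set s : Finset (κ × ℕ) := Finset.univ.biUnion fun k : κ => (Finset.range (n0 k)).image fun j => (k, j) with hs
        have hset : Sl x T K c p = {n | ∃ b ∈ s,
            n ∈ Sl x T (insert b.1.1 K) (Function.update c b.1.1 b.2) (Function.update p b.1.1 0)} := by
          ext n
          simp only [Set.mem_setOf_eq]
          constructor
          · intro hn
            have h1 : ∃ k : κ, n k.1 < n0 k := by
              by_contra hcon
              push Not at hcon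
              apply hn0 (fun k => n k.1) hcon
              rw [heval n hn.1 P]
              exact hn.2 P hPT
            obtain ⟨k, hk⟩ := h1
            refine ⟨(k, n k.1), ?_, (Sl_insert x T K c p k.1 k.2 _ _ n).2 ⟨hn, 0, by simp⟩⟩
            simp only [hs, Finset.mem_biUnion, Finset.mem_univ, true_and, Finset.mem_image, Finset.mem_range]
            exact ⟨k, n k.1, hk, rfl⟩
          · rintro ⟨b, _, hn⟩
            exact ((Sl_insert x T K c p b.1.1 b.1.2 _ _ n).1 hn).1
        rw [hset]
        apply FU_bi
        intro b _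
        apply step b.1.1 b.1.2
        intro h
        simp

end Pool.Agent.Run7.h942.SO
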